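import Pool.Agent.WAQ.StmtsL
import Pool.Agent.WAQ.Alg

set_option autoImplicit false

namespace Pool.Agent.WAQ.H34

open Classical WeierstrassCurve.Affine Pool.Agent.WAQ Pool.Agent.WAQ.G

variable [Par]

/-- a point killed by 2 is one of the four 2-torsion points -/
theorem isT_of_add_self {F : Type} [Field F] [Gd F] {d : F} (h2 : (2 : F) ≠ 0) (hd : d ≠ 0)
    {T : Pt d} (h : T + T = 0) : IsT T := by
  by_cases h0 : T = 0
  · exact Or.inl h0
  · have hP := isP_self hd h0
    have hn : -T = T := neg_eq_of_add_eq_zero_left h
    have hy : yn T = 0 := by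
      have h3 := yn_neg T
      rw [hn] at h3
      have h4 : 2 * yn T = 0 := by linear_combination h3
      exact (mul_eq_zero.1 h4).resolve_left h2
    rw [hy] at hP
    have he := hP.eqn hd
    have hc : cub (xn T) = 0 := by rw [← he]; ring
    have ht := isP_tor (d := d) h2 hd hc
    have hT : T = tor d (xn T) := hP.ext ht
    unfold cub at hc
    rcases mul_eq_zero.1 hc with h3 | h3
    · rcases mul_eq_zero.1 h3 with h4 | h4
      · rw [h4] at hT
        exact Or.inr (Or.inl hT)
      · rw [sub_eq_zero.1 h4] at hT
        exact Or.inr (Or.inr (Or.inl hT))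
    · rw [sub_eq_zero.1 h3] at hT
      exact Or.inr (Or.inr (Or.inr hT))

/-- the four points are killed by 2 -/
theorem add_self_of_isT {F : Type} [Field F] [Gd F] {d : F} (h2 : (2 : F) ≠ 0) (hd : d ≠ 0)
    {T : Pt d} (h : IsT T) : T + T = 0 := by
  rcases h with h | h | h | h
  · rw [h, add_zero]
  · rw [h]; exact tor_add_self h2 hd cub_zero
  · rw [h]; exact tor_add_self h2 hd cub_ea
  · rw [h]; exact tor_add_self h2 hd cub_eb

/-- Row ITS. -/
theorem its : ItsStmt := by
  intro F _ ϖ hL d hd
  haveI := hL.gd
  have h2 := hL.two_ne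
  refine ⟨?_, ?_, ?_, ?_⟩
  · intro T hT
    have h := add_self_of_isT h2 hd hT
    exact ⟨h, neg_eq_of_add_eq_zero_left h⟩
  · intro T T' hT hT'
    have h := add_self_of_isT h2 hd hT
    have h' := add_self_of_isT h2 hd hT'
    apply isT_of_add_self h2 hd
    rw [add_add_add_comm, h, h', add_zero]
  · intro n T hT
    have h := add_self_of_isT h2 hd hT
    apply isT_of_add_self h2 hd
    rw [← sm_add, h, sm_zero]
  · intro T hT hB
    rcases hB with h0 | hB
    · exact h0
    · exfalso
      have key : ∀ e : F, cub e = 0 → ‖e‖ ≤ 1 → T = tor d e → False := by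
        intro e he hn h
        have h3 : xn T = e := by
          rw [h]
          exact (isP_tor h2 hd he).xn_eq hd
        have h4 : cX T / d = e := h3
        rw [h4] at hB
        exact absurd hB (not_lt.2 hn)
      rcases hT with h | h | h | h
      · rw [h] at hB
        have h3 : cX (0 : Pt d) / d = 0 := xn_zero
        rw [h3, norm_zero] at hB
        linarith
      · exact key 0 cub_zero (by rw [norm_zero]; exact zero_le_one) h
      · exact key _ cub_ea hL.norm_ea.le h
      · exact key _ cub_eb hL.norm_eb.le h

end Pool.Agent.WAQ.H34
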